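import Mathlib

/-!
# Statements for MP_521103_al  (helper450)

Core setting: `R` a unital commutative topological `ℂ`-algebra (the unitization `A₊`) with open unit
group and continuous inversion, `I` an ideal (the algebra `A`), operators `E a`, `F a`, `K a`
(`= π(ae), π(af), π(ah)`) depending linearly and continuously on `a`.
-/

namespace Pool.Agent.R450.Cia

open Filter Topology Polynomial
open scoped InnerProductSpace Nat

/-! ### Piece A: power bounds in a continuous inverse algebra -/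

section A

variable {R : Type*} [CommRing R] [Algebra ℂ R] [TopologicalSpace R] [IsTopologicalRing R]
  [ContinuousSMul ℂ R] [LocallyConvexSpace ℝ R]

/-- (A1) For every neighbourhood `U` of `0` there is a neighbourhood `V` of `0` with
`x ^ n ∈ U` for all `x ∈ V`, `n ≥ 1`. -/
def StmtA1 (R : Type*) [CommRing R] [TopologicalSpace R] : Prop :=
  ∀ U ∈ 𝓝 (0 : R), ∃ V ∈ 𝓝 (0 : R), ∀ x ∈ V, ∀ n : ℕ, 1 ≤ n → x ^ n ∈ U

/-- (A2) If the coefficients of polynomials `P m` tend to zero in every weighted `ℓ¹`-norm then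
`P m` evaluated at `a` tends to `0`. -/
def StmtA2 (R : Type*) [CommRing R] [Algebra ℂ R] [TopologicalSpace R] : Prop :=
  ∀ (P : ℕ → ℂ[X]), (∀ ρ : ℝ, 0 < ρ → Tendsto (fun m => (P m).sum fun k c => ‖c‖ * ρ ^ k)
      atTop (𝓝 0)) → ∀ a : R, Tendsto (fun m => aeval a (P m)) atTop (𝓝 0)

end A

/-! ### The operator data -/

/-- The data `E, F, K, v, lam` on an ideal `I`. -/
structure Data (R : Type*) [CommRing R] [Algebra ℂ R] [TopologicalSpace R] (I : Ideal R)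
    (H : Type*) [NormedAddCommGroup H] [InnerProductSpace ℂ H] [CompleteSpace H] where
  E : R →ₗ[ℂ] (H →L[ℂ] H)
  F : R →ₗ[ℂ] (H →L[ℂ] H)
  K : R →ₗ[ℂ] (H →L[ℂ] H)
  contE : Continuous E
  contF : Continuous F
  contK : Continuous K
  EF : ∀ a ∈ I, ∀ b ∈ I, E a * F b - F b * E a = K (a * b)
  KE : ∀ a ∈ I, ∀ b ∈ I, K a * E b - E b * K a = (2 : ℂ) • E (a * b)
  KF : ∀ a ∈ I, ∀ b ∈ I, K a * F b - F b * K a = -((2 : ℂ) • F (a * b))
  EE : ∀ a ∈ I, ∀ b ∈ I, E a * E b = E b * E a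
  FF : ∀ a ∈ I, ∀ b ∈ I, F a * F b = F b * F a
  v : H
  norm_v : ‖v‖ = 1
  lam : R →ₗ[ℂ] ℂ
  contlam : Continuous lam
  Ev : ∀ a ∈ I, E a v = 0
  Kv : ∀ a ∈ I, K a v = lam a • v
  vF : ∀ a ∈ I, ∀ w, ⟪v, F a w⟫_ℂ = 0
  vK : ∀ a ∈ I, ∀ w, ⟪v, K a w⟫_ℂ = lam a * ⟪v, w⟫_ℂ

section B

variable {R : Type*} [CommRing R] [Algebra ℂ R] [TopologicalSpace R] [IsTopologicalRing R]
  [ContinuousSMul ℂ R] {I : Ideal R}
  {H : Type*} [NormedAddCommGroup H] [InnerProductSpace ℂ H] [CompleteSpace H]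

/-- `G_q(y) = ⟨v, exp(E y) exp(F (q(y))) v⟩`. -/
noncomputable def Data.G (D : Data R I H) (q : ℂ[X]) (y : R) : ℂ :=
  ⟪D.v, (NormedSpace.exp (D.E y) * NormedSpace.exp (D.F (aeval y q))) D.v⟫_ℂ

/-- (B) the logarithmic derivative of `G_q` where `d = 1 + y q(y)` is invertible. -/
def StmtB (D : Data R I H) : Prop :=
  ∀ (q : ℂ[X]), q.coeff 0 = 0 → ∀ y ∈ I, ∀ w ∈ I, ∀ e : R, (1 + y * aeval y q) * e = 1 →
    HasDerivAt (fun t : ℂ => D.G q (y + t • w))
      (D.lam (w * aeval y (derivative (X * q)) * e) * D.G q y) 0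

end B

end Pool.Agent.R450.Cia
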