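import Mathlib
import Pool.Agent.R450.Cia.Stmts

/-!
# Piece A: power bounds in a commutative continuous inverse algebra  (helper258 for helper450)
-/

namespace Pool.Agent.R450.Cia

open Filter Topology Finset

variable {R : Type*} [CommRing R] [Algebra ℂ R] [TopologicalSpace R] [IsTopologicalRing R]
  [ContinuousSMul ℂ R] [LocallyConvexSpace ℝ R]

/-- Neighbourhoods of zero on which `1 + z` is a unit with controlled inverse. -/
theorem exists_unit_nhds (hopen : IsOpen {u : R | IsUnit u})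
    (hinv : ContinuousOn Ring.inverse {u : R | IsUnit u}) (U : Set R) (hU : U ∈ 𝓝 (0 : R)) :
    ∃ W ∈ 𝓝 (0 : R), ∀ z ∈ W, IsUnit (1 + z) ∧ Ring.inverse (1 + z) - 1 ∈ U := by
  have h1 : ContinuousAt (Ring.inverse : R → R) 1 :=
    hinv.continuousAt (hopen.mem_nhds isUnit_one)
  have hc : Continuous fun z : R => 1 + z := by fun_prop
  have h2 : Tendsto (fun z : R => 1 + z) (𝓝 0) (𝓝 1) := by
    have := hc.tendsto 0
    simpa using this
  have h3 : Tendsto (fun z : R => Ring.inverse (1 + z) - 1) (𝓝 0) (𝓝 0) := by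
    have h4 : Tendsto (fun z : R => Ring.inverse (1 + z)) (𝓝 0) (𝓝 (Ring.inverse 1)) :=
      h1.tendsto.comp h2
    rw [Ring.inverse_one] at h4
    simpa using h4.sub_const 1
  have h5 : ∀ᶠ z in 𝓝 (0 : R), IsUnit (1 + z) := h2 (hopen.mem_nhds isUnit_one)
  have h6 : ∀ᶠ z in 𝓝 (0 : R), Ring.inverse (1 + z) - 1 ∈ U := h3 hU
  exact ⟨{z | IsUnit (1 + z) ∧ Ring.inverse (1 + z) - 1 ∈ U}, h5.and h6, fun z hz => hz⟩

/-- The average of the resolvents over the roots of unity. -/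
theorem avg_resolvent (x : R) (n : ℕ) (hn : 1 ≤ n) (ω : ℂ) (hω : IsPrimitiveRoot ω n) (T : ℕ → R)
    (hT : ∀ j, (1 - (ω ^ j) • x) * T j = 1) :
    (1 - x ^ n) * ((n : ℂ)⁻¹ • ∑ j ∈ range n, T j) = 1 := by
  have hn0 : (n : ℂ) ≠ 0 := by
    have : 0 < n := hn
    exact_mod_cast this.ne'
  have h1 : ∀ j, (1 - x ^ n) * T j = ∑ k ∈ range n, (ω ^ j • x) ^ k := by
    intro j
    have h2 : (ω ^ j • x) ^ n = x ^ n := by
      rw [smul_pow, ← pow_mul, mul_comm j n, pow_mul, hω.pow_eq_one, one_pow, one_smul]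
    have h3 := geom_sum_mul_neg (ω ^ j • x) n
    rw [h2] at h3
    rw [← h3, mul_assoc, hT j, mul_one]
  rw [mul_smul_comm, mul_sum, sum_congr rfl fun j _ => h1 j, sum_comm]
  have h4 : ∀ k ∈ range n, (∑ j ∈ range n, (ω ^ j • x) ^ k) = if k = 0 then (n : ℂ) • (1 : R) else 0 := by
    intro k hk
    have hk' := mem_range.1 hk
    split_ifs with h0
    · subst h0
      simp [Algebra.smul_def]
    · have h5 : (∑ j ∈ range n, (ω ^ j • x) ^ k) = (∑ j ∈ range n, (ω ^ k) ^ j) • x ^ k := by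
        rw [sum_smul]
        refine sum_congr rfl fun j _ => ?_
        rw [smul_pow, ← pow_mul, ← pow_mul, mul_comm]
      have h6 : (∑ j ∈ range n, (ω ^ k) ^ j) = 0 := by
        have h7 : ω ^ k ≠ 1 := hω.pow_ne_one_of_pos_of_lt h0 hk'
        have h8 := mul_neg_geom_sum (ω ^ k) n
        rw [← pow_mul, mul_comm k n, pow_mul, hω.pow_eq_one, one_pow, sub_self] at h8
        rcases mul_eq_zero.1 h8 with h | h
        · exact absurd (sub_eq_zero.1 h).symm h7
        · exact h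
      rw [h5, h6, zero_smul]
  rw [sum_congr rfl h4, sum_ite_eq' (range n) 0, if_pos (mem_range.2 hn), smul_smul,
    inv_mul_cancel₀ hn0, one_smul]

theorem A1 (hopen : IsOpen {u : R | IsUnit u})
    (hinv : ContinuousOn Ring.inverse {u : R | IsUnit u}) : StmtA1 R := by
  intro U hU
  have hU' : -U ∈ 𝓝 (0 : R) := by
    have : -U = (fun z : R => -z) ⁻¹' U := rfl
    rw [this]
    exact (continuous_neg.tendsto' (0 : R) 0 neg_zero) hU
  obtain ⟨W, hW, hW1⟩ := exists_unit_nhds hopen hinv (-U) hU'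
  obtain ⟨C, ⟨hC, hCc⟩, hCW⟩ := (LocallyConvexSpace.convex_basis_zero ℝ R).mem_iff.1 hW
  obtain ⟨V1, hV1, hV1'⟩ := exists_unit_nhds hopen hinv C hC
  obtain ⟨V, ⟨hV, hVb⟩, hVV1⟩ := (nhds_basis_balanced ℂ R).mem_iff.1 hV1
  refine ⟨V, hV, fun x hx n hn => ?_⟩
  have hn0 : n ≠ 0 := by omega
  set ω : ℂ := Complex.exp (2 * Real.pi * Complex.I / n) with hω'
  have hω : IsPrimitiveRoot ω n := Complex.isPrimitiveRoot_exp n hn0
  have hωn : ‖ω‖ = 1 := hω.norm'_eq_one hn0
  have hmem : ∀ j : ℕ, -(ω ^ j • x) ∈ V := by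
    intro j
    have : -(ω ^ j • x) = (-(ω ^ j)) • x := by rw [neg_smul]
    rw [this]
    refine hVb.smul_mem ?_ hx
    rw [norm_neg, norm_pow, hωn, one_pow]
  have hT : ∀ j : ℕ, IsUnit (1 - ω ^ j • x) ∧ Ring.inverse (1 - ω ^ j • x) - 1 ∈ C := by
    intro j
    have := hV1' _ (hVV1 (hmem j))
    rwa [← sub_eq_add_neg] at this
  have hS := avg_resolvent x n hn ω hω (fun j => Ring.inverse (1 - ω ^ j • x))
    (fun j => Ring.mul_inverse_cancel _ (hT j).1)
  set S : R := (n : ℂ)⁻¹ • ∑ j ∈ range n, Ring.inverse (1 - ω ^ j • x) with hSdef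
  have hSC : S - 1 ∈ C := by
    have h1 : S - 1 = ∑ j ∈ range n, ((n : ℝ)⁻¹) • (Ring.inverse (1 - ω ^ j • x) - 1) := by
      rw [← smul_sum, sum_sub_distrib, hSdef, smul_sub]
      congr 1
      · rw [← Complex.coe_smul]
        push_cast
        rfl
      · rw [sum_const, card_range, ← Nat.cast_smul_eq_nsmul ℝ, smul_smul,
          inv_mul_cancel₀ (by exact_mod_cast hn0), one_smul]
    rw [h1]
    refine hCc.sum_mem (fun j _ => by positivity) ?_ (fun j _ => (hT j).2)
    rw [sum_const, card_range, nsmul_eq_mul, mul_inv_cancel₀ (by exact_mod_cast hn0)]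
  have h2 := hW1 _ (hCW hSC)
  have h3 : (1 : R) + (S - 1) = S := by ring
  rw [h3] at h2
  have h4 : Ring.inverse S = 1 - x ^ n := by
    have h5 : Ring.inverse S * S = 1 := Ring.inverse_mul_cancel _ h2.1
    calc Ring.inverse S = Ring.inverse S * ((1 - x ^ n) * S) := by rw [hS, mul_one]
      _ = (1 - x ^ n) * (Ring.inverse S * S) := by ring
      _ = 1 - x ^ n := by rw [h5, mul_one]
  have h6 := h2.2
  rw [h4] at h6
  have h7 : -(1 - x ^ n - 1) ∈ U := h6
  have h8 : -(1 - x ^ n - 1) = x ^ n := by ring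
  rwa [h8] at h7

theorem A2 (hopen : IsOpen {u : R | IsUnit u})
    (hinv : ContinuousOn Ring.inverse {u : R | IsUnit u}) : StmtA2 R := by
  intro P hP a
  have hA1 := A1 hopen hinv
  haveI : ContinuousSMul ℝ R := IsScalarTower.continuousSMul ℂ
  have hws := with_gaugeSeminormFamily (𝕜 := ℝ) (E := R)
  rw [hws.tendsto_nhds]
  intro i ε hε
  set p := gaugeSeminormFamily ℝ R i with hp
  have hpc : Continuous p := hws.continuous_seminorm i
  set q : R → ℝ := fun x => p x + p ((Complex.I : ℂ) • x) with hq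
  have hqc : Continuous q := by
    refine hpc.add (hpc.comp ?_)
    fun_prop
  have hq0 : q 0 = 0 := by simp [hq]
  have hqnn : ∀ x, 0 ≤ q x := fun x => add_nonneg (apply_nonneg p _) (apply_nonneg p _)
  have hpq : ∀ (c : ℂ) (x : R), p (c • x) ≤ ‖c‖ * q x := by
    intro c x
    have h1 : c • x = c.re • x + c.im • ((Complex.I : ℂ) • x) := by
      conv_lhs => rw [← Complex.re_add_im c]
      rw [add_smul, mul_smul, Complex.coe_smul, Complex.coe_smul]
    rw [h1]
    refine (map_add_le_add p _ _).trans ?_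
    rw [map_smul_eq_mul, map_smul_eq_mul, hq, mul_add, Real.norm_eq_abs, Real.norm_eq_abs]
    exact add_le_add (mul_le_mul_of_nonneg_right (Complex.abs_re_le_norm c) (apply_nonneg p _))
      (mul_le_mul_of_nonneg_right (Complex.abs_im_le_norm c) (apply_nonneg p _))
  have hqr : ∀ (r : ℝ) (x : R), 0 ≤ r → q (r • x) = r * q x := by
    intro r x hr
    have h1 : (Complex.I : ℂ) • (r • x) = r • ((Complex.I : ℂ) • x) := smul_comm _ _ _
    simp only [hq]
    rw [h1, map_smul_eq_mul, map_smul_eq_mul, Real.norm_eq_abs, abs_of_nonneg hr, mul_add]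
  obtain ⟨V, hV, hV1⟩ := hA1 {x | q x < 1} (by
    have : {x : R | q x < 1} = q ⁻¹' (Set.Iio 1) := rfl
    rw [this]
    exact hqc.continuousAt (Iio_mem_nhds (by rw [hq0]; exact one_pos)))
  obtain ⟨r, hr0, hrV⟩ : ∃ r : ℝ, 0 < r ∧ r • a ∈ V := by
    have h1 : Tendsto (fun r : ℝ => r • a) (𝓝 0) (𝓝 0) := by
      have : Continuous fun r : ℝ => r • a := by fun_prop
      simpa using this.tendsto 0
    have h2 : ∀ᶠ r in 𝓝 (0 : ℝ), r • a ∈ V := h1 hV
    have h3 : ∀ᶠ r in 𝓝[>] (0 : ℝ), r • a ∈ V := h2.filter_mono nhdsWithin_le_nhds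
    obtain ⟨r, hr, hr'⟩ := (h3.and self_mem_nhdsWithin).exists
    exact ⟨r, hr', hr⟩
  set ρ : ℝ := r⁻¹ with hρ
  have hρ0 : 0 < ρ := inv_pos.2 hr0
  have hrρ : r * ρ = 1 := mul_inv_cancel₀ hr0.ne'
  have hqa : ∀ k : ℕ, q (a ^ k) ≤ (q 1 + 1) * ρ ^ k := by
    intro k
    rcases Nat.eq_zero_or_pos k with h0 | h0
    · subst h0
      simp
    · have h1 := hV1 _ hrV k h0
      have h2 : q ((r • a) ^ k) < 1 := h1
      rw [smul_pow, hqr _ _ (by positivity)] at h2
      have h3 : q (a ^ k) ≤ ρ ^ k := by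
        have h4 : q (a ^ k) = (r * ρ) ^ k * q (a ^ k) := by rw [hrρ, one_pow, one_mul]
        rw [h4, mul_pow]
        have h5 : 0 < ρ ^ k := by positivity
        nlinarith [h2, h5]
      have h6 : 0 ≤ q 1 := hqnn 1
      have h7 : 0 < ρ ^ k := by positivity
      nlinarith
  have hbound : ∀ m, p (Polynomial.aeval a (P m) - 0) ≤ (q 1 + 1) * ((P m).sum fun k c => ‖c‖ * ρ ^ k) := by
    intro m
    rw [sub_zero, Polynomial.aeval_eq_sum_range' (n := (P m).natDegree + 1) (Nat.lt_succ_self _)]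
    have hsum : ((P m).sum fun k c => ‖c‖ * ρ ^ k)
        = ∑ k ∈ range ((P m).natDegree + 1), ‖(P m).coeff k‖ * ρ ^ k := by
      rw [Polynomial.sum_over_range]
      intro k; simp
    rw [hsum, mul_sum]
    refine (Finset.le_sum_of_subadditive p (map_zero p).le (map_add_le_add p) _ _).trans (sum_le_sum fun k _ => ?_)
    refine (hpq _ _).trans ?_
    have := mul_le_mul_of_nonneg_left (hqa k) (norm_nonneg ((P m).coeff k))
    linarith
  have hlim : Tendsto (fun m => (q 1 + 1) * ((P m).sum fun k c => ‖c‖ * ρ ^ k)) atTop (𝓝 0) := by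
    simpa using (hP ρ hρ0).const_mul (q 1 + 1)
  filter_upwards [hlim.eventually (gt_mem_nhds hε)] with m hm
  exact (hbound m).trans_lt hm

end Pool.Agent.R450.Cia
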