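import Pool.Agent.R450.Cia.Stmts

/-!
# Piece B of MP_521103_al: the logarithmic derivative of a matrix coefficient
-/

set_option autoImplicit false

namespace Pool.Agent.R450.Cia

open Filter Topology Polynomial NormedSpace
open scoped InnerProductSpace Nat

namespace BAux

section alg

variable {𝔸 : Type*} [NormedRing 𝔸] [NormedAlgebra ℂ 𝔸] [CompleteSpace 𝔸]

lemma exp_add {x y : 𝔸} (h : x * y = y * x) : exp (x + y) = exp x * exp y := by
  let : NormedAlgebra ℚ 𝔸 := NormedAlgebra.restrictScalars ℚ ℂ 𝔸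
  exact exp_add_of_commute h

lemma exp_mul_neg (x : 𝔸) : exp x * exp (-x) = 1 := by
  rw [← exp_add (by rw [mul_neg, neg_mul]), add_neg_cancel, exp_zero]

lemma exp_comm {x y : 𝔸} (h : x * y = y * x) : exp x * y = y * exp x :=
  (Commute.exp_left (show Commute x y from h)).eq

lemma conj {X Y Z W : 𝔸} (h1 : X * Y - Y * X = Z) (h2 : X * Z - Z * X = W)
    (h3 : X * W = W * X) : exp X * Y = (Y + Z + (1 / 2 : ℂ) • W) * exp X := by
  obtain ⟨A, hA⟩ : ∃ A : ℂ → 𝔸, A = fun t => Y + t • Z + (t ^ 2 / 2) • W := ⟨_, rfl⟩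
  obtain ⟨ψ, hψ⟩ : ∃ ψ : ℂ → 𝔸, ψ = fun t => exp (t • (-X)) * A t * exp (t • X) := ⟨_, rfl⟩
  have hd : ∀ t, HasDerivAt ψ 0 t := by
    intro t
    have d1 : HasDerivAt (fun u : ℂ => exp (u • (-X))) (exp (t • (-X)) * (-X)) t :=
      hasDerivAt_exp_smul_const (𝕂 := ℂ) (-X) t
    have d3 : HasDerivAt (fun u : ℂ => exp (u • X)) (X * exp (t • X)) t :=
      hasDerivAt_exp_smul_const' (𝕂 := ℂ) X t
    have d2 : HasDerivAt A (Z + t • W) t := by
      have a1 : HasDerivAt (fun t : ℂ => t • Z) ((1 : ℂ) • Z) t := (hasDerivAt_id t).smul_const Z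
      have a2 : HasDerivAt (fun t : ℂ => (t ^ 2 / 2) • W) (t • W) t := by
        have a3 : HasDerivAt (fun t : ℂ => t ^ 2 / 2) t t := by
          have := (hasDerivAt_pow 2 t).div_const (2 : ℂ)
          refine this.congr_deriv ?_
          simp
        exact a3.smul_const W
      have a4 := ((hasDerivAt_const t Y).add a1).add a2
      rw [hA]
      refine a4.congr_deriv ?_
      simp
    have key : X * A t - A t * X = Z + t • W := by
      have e : X * A t - A t * X = (X * Y - Y * X) + t • (X * Z - Z * X) +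
          (t ^ 2 / 2) • (X * W - W * X) := by
        rw [hA]
        simp only [mul_add, add_mul, mul_smul_comm, smul_mul_assoc, smul_sub]
        abel
      rw [e, h1, h2, h3, sub_self, smul_zero, add_zero]
    have d4 := (d1.mul d2).mul d3
    rw [hψ]
    refine d4.congr_deriv ?_
    show (exp (t • (-X)) * (-X) * A t + exp (t • (-X)) * (Z + t • W)) * exp (t • X) +
      exp (t • (-X)) * A t * (X * exp (t • X)) = 0
    rw [← key]
    generalize exp (t • (-X)) = p1
    generalize exp (t • X) = p2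
    generalize A t = p3
    noncomm_ring
  have hc := is_const_of_deriv_eq_zero (𝕜 := ℂ) (f := ψ) (fun t => (hd t).differentiableAt)
    (fun t => (hd t).deriv) 1 0
  have h1' : ψ 1 = exp (-X) * (Y + Z + (1 / 2 : ℂ) • W) * exp X := by
    rw [hψ, hA]; simp
  have h0' : ψ 0 = Y := by
    rw [hψ, hA]; simp
  rw [h1', h0'] at hc
  calc exp X * Y = exp X * (exp (-X) * (Y + Z + (1 / 2 : ℂ) • W) * exp X) := by rw [hc]
    _ = (exp X * exp (-X)) * ((Y + Z + (1 / 2 : ℂ) • W) * exp X) := by noncomm_ring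
    _ = _ := by rw [exp_mul_neg, one_mul]

end alg

variable {R : Type*} [CommRing R] [Algebra ℂ R] [TopologicalSpace R] [IsTopologicalRing R]
  [ContinuousSMul ℂ R] {I : Ideal R}
  {H : Type*} [NormedAddCommGroup H] [InnerProductSpace ℂ H] [CompleteSpace H]

lemma eF (D : Data R I H) {y z : R} (hy : y ∈ I) (hz : z ∈ I) :
    exp (D.E y) * D.F z = (D.F z + D.K (y * z) - D.E (y * z * y)) * exp (D.E y) := by
  have hyz : y * z ∈ I := I.mul_mem_right _ hy
  have hyzy : y * z * y ∈ I := I.mul_mem_right _ hyz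
  have := conj (X := D.E y) (Y := D.F z) (Z := D.K (y * z)) (W := -((2 : ℂ) • D.E (y * z * y)))
    (D.EF y hy z hz) (by rw [← D.KE _ hyz _ hy]; abel)
    (by rw [mul_neg, neg_mul, mul_smul_comm, smul_mul_assoc, D.EE _ hy _ hyzy])
  rw [this]
  congr 1
  rw [smul_neg, smul_smul]
  norm_num
  abel

lemma eK (D : Data R I H) {y x : R} (hy : y ∈ I) (hx : x ∈ I) :
    exp (D.E y) * D.K x = (D.K x - (2 : ℂ) • D.E (x * y)) * exp (D.E y) := by
  have hxy : x * y ∈ I := I.mul_mem_right _ hx
  have := conj (X := D.E y) (Y := D.K x) (Z := -((2 : ℂ) • D.E (x * y))) (W := 0)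
    (by rw [← D.KE _ hx _ hy]; abel)
    (by rw [mul_neg, neg_mul, mul_smul_comm, smul_mul_assoc, D.EE _ hy _ hxy, sub_self])
    (by rw [mul_zero, zero_mul])
  rw [this, smul_zero, add_zero, ← sub_eq_add_neg]

lemma fE (D : Data R I H) {c w : R} (hc : c ∈ I) (hw : w ∈ I) :
    exp (D.F c) * D.E w = (D.E w - D.K (w * c) - D.F (w * c * c)) * exp (D.F c) := by
  have hwc : w * c ∈ I := I.mul_mem_right _ hw
  have hwcc : w * c * c ∈ I := I.mul_mem_right _ hwc
  have := conj (X := D.F c) (Y := D.E w) (Z := -D.K (w * c)) (W := -((2 : ℂ) • D.F (w * c * c)))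
    (by rw [← D.EF _ hw _ hc]; abel)
    (by rw [← D.KF _ hwc _ hc, mul_neg, neg_mul]; abel)
    (by rw [mul_neg, neg_mul, mul_smul_comm, smul_mul_assoc, D.FF _ hc _ hwcc])
  rw [this]
  congr 1
  rw [smul_neg, smul_smul]
  norm_num
  abel

/-- (B3) -/
lemma b3 (D : Data R I H) {y c w e : R} (hy : y ∈ I) (hc : c ∈ I) (hw : w ∈ I)
    (he : (1 + y * c) * e = 1) :
    ⟪D.v, D.E w ((exp (D.E y) * exp (D.F c)) D.v)⟫_ℂ =
      D.lam (w * c * e) * ⟪D.v, (exp (D.E y) * exp (D.F c)) D.v⟫_ℂ := by
  obtain ⟨x, hx⟩ : ∃ x : R, x = w * e * e := ⟨_, rfl⟩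
  have hxI : x ∈ I := by rw [hx, mul_assoc]; exact I.mul_mem_right _ hw
  have hxc : x * c ∈ I := I.mul_mem_right _ hxI
  have hxcc : x * c * c ∈ I := I.mul_mem_right _ hxc
  obtain ⟨u, hu⟩ : ∃ u, u = (exp (D.E y) * exp (D.F c)) D.v := ⟨_, rfl⟩
  have key : exp (D.E y) * (exp (D.F c) * D.E x) =
      (D.E x - (D.K (x * c) - (2 : ℂ) • D.E (x * c * y)) -
        (D.F (x * c * c) + D.K (y * (x * c * c)) - D.E (y * (x * c * c) * y))) *
      (exp (D.E y) * exp (D.F c)) := by
    rw [fE D hc hxI]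
    have a1 : exp (D.E y) * D.E x = D.E x * exp (D.E y) := exp_comm (D.EE _ hy _ hxI)
    have a2 := eK D hy hxc
    have a3 := eF D hy hxcc
    calc exp (D.E y) * ((D.E x - D.K (x * c) - D.F (x * c * c)) * exp (D.F c))
        = (exp (D.E y) * D.E x - exp (D.E y) * D.K (x * c) - exp (D.E y) * D.F (x * c * c)) *
          exp (D.F c) := by noncomm_ring
      _ = _ := by rw [a1, a2, a3]; noncomm_ring
  have h0 : (exp (D.E y) * (exp (D.F c) * D.E x)) D.v = 0 := by
    show exp (D.E y) (exp (D.F c) (D.E x D.v)) = 0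
    rw [D.Ev x hxI, map_zero, map_zero]
  rw [key] at h0
  have h1 : (D.E x - (D.K (x * c) - (2 : ℂ) • D.E (x * c * y)) -
        (D.F (x * c * c) + D.K (y * (x * c * c)) - D.E (y * (x * c * c) * y))) u = 0 := by
    rw [hu]; exact h0
  have h2 : D.E x - (D.K (x * c) - (2 : ℂ) • D.E (x * c * y)) -
        (D.F (x * c * c) + D.K (y * (x * c * c)) - D.E (y * (x * c * c) * y)) =
      D.E w - D.K (w * c * e) - D.F (x * c * c) := by
    have e1 : D.E w = D.E x + (2 : ℂ) • D.E (x * c * y) + D.E (y * (x * c * c) * y) := by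
      rw [← map_smul, ← map_add, ← map_add]
      congr 1
      have h4 : (2 : ℂ) • (x * c * y) = x * c * y + x * c * y := two_smul ℂ _
      have h5 : w * ((1 + y * c) * e) ^ 2 = w * e * e +
          (w * e * e * c * y + w * e * e * c * y) + y * (w * e * e * c * c) * y := by ring
      rw [he, one_pow, mul_one] at h5
      rw [h4, hx]
      exact h5
    have e2 : D.K (w * c * e) = D.K (x * c) + D.K (y * (x * c * c)) := by
      rw [← map_add]
      congr 1
      rw [hx]
      have h3 : w * c * e = w * c * e * ((1 + y * c) * e) := by rw [he]; ring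
      rw [h3]
      ring
    rw [e1, e2]
    abel
  rw [h2] at h1
  have h3 : D.E w u = D.K (w * c * e) u + D.F (x * c * c) u := by
    have : D.E w u - D.K (w * c * e) u - D.F (x * c * c) u = 0 := h1
    rw [sub_sub, sub_eq_zero] at this
    exact this
  have hwce : w * c * e ∈ I := by rw [mul_assoc]; exact I.mul_mem_right _ hw
  rw [← hu, h3, inner_add_right, D.vK _ hwce, D.vF _ hxcc, add_zero]

/-- (B4) -/
lemma b4 (D : Data R I H) {y c z e : R} (hy : y ∈ I) (hc : c ∈ I) (hz : z ∈ I)
    (he : (1 + y * c) * e = 1) :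
    ⟪D.v, (exp (D.E y) * exp (D.F c) * D.F z) D.v⟫_ℂ =
      D.lam (y * z * e) * ⟪D.v, (exp (D.E y) * exp (D.F c)) D.v⟫_ℂ := by
  have hyz : y * z ∈ I := I.mul_mem_right _ hy
  have hyzy : y * z * y ∈ I := I.mul_mem_right _ hyz
  have a1 : exp (D.F c) * D.F z = D.F z * exp (D.F c) := exp_comm (D.FF _ hc _ hz)
  have a2 := eF D hy hz
  have a3 : exp (D.E y) * exp (D.F c) * D.F z =
      (D.F z + D.K (y * z) - D.E (y * z * y)) * (exp (D.E y) * exp (D.F c)) := by
    rw [mul_assoc, a1, ← mul_assoc, a2, mul_assoc]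
  obtain ⟨u, hu⟩ : ∃ u, u = (exp (D.E y) * exp (D.F c)) D.v := ⟨_, rfl⟩
  have a4 : (exp (D.E y) * exp (D.F c) * D.F z) D.v =
      D.F z u + D.K (y * z) u - D.E (y * z * y) u := by
    rw [a3, hu]; rfl
  rw [a4, inner_sub_right, inner_add_right, D.vF _ hz, D.vK _ hyz, hu, b3 D hy hc hyzy he,
    zero_add, ← sub_mul, ← map_sub]
  congr 2
  have h3 : y * z * e = y * z * (((1 + y * c) * e) - y * c * e) := by ring
  rw [h3, he]
  ring

/-- the derivative of the polynomial -/
lemma polyF (D : Data R I H) (q : ℂ[X]) (y w : R) : ∀ z : R,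
    HasDerivAt (fun t : ℂ => D.F (aeval (y + t • w) q * z)) (D.F (aeval y (derivative q) * w * z))
      0 := by
  have hpow : ∀ k : ℕ, ∀ z : R, HasDerivAt (fun t : ℂ => D.F ((y + t • w) ^ k * z))
      (D.F ((k : ℂ) • (y ^ (k - 1) * w * z))) 0 := by
    intro k
    induction k with
    | zero =>
      intro z
      simp only [pow_zero, one_mul, Nat.cast_zero, zero_smul, map_zero]
      exact hasDerivAt_const _ _
    | succ k ih =>
      intro z
      have e : (fun t : ℂ => D.F ((y + t • w) ^ (k + 1) * z)) =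
          fun t : ℂ => D.F ((y + t • w) ^ k * (y * z)) + t • D.F ((y + t • w) ^ k * (w * z)) := by
        funext t
        rw [← map_smul, ← map_add]
        congr 1
        rw [pow_succ, mul_assoc, add_mul, mul_add, smul_mul_assoc, mul_smul_comm]
      rw [e]
      have h1 := ih (y * z)
      have h2 := (hasDerivAt_id (0 : ℂ)).smul (ih (w * z))
      refine (h1.add h2).congr_deriv ?_
      simp only [id_eq, zero_smul, add_zero, zero_add, one_smul, ← map_add]
      congr 1
      rw [Nat.add_sub_cancel]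
      rcases Nat.eq_zero_or_pos k with hk | hk
      · subst hk; simp
      · have : y ^ k = y ^ (k - 1) * y := by
          rw [← pow_succ, Nat.sub_add_cancel hk]
        push_cast
        rw [add_smul, one_smul, this]
        congr 1
        · congr 1; ring
        · ring
  induction q using Polynomial.induction_on' with
  | add p q hp hq =>
    intro z
    have e : (fun t : ℂ => D.F (aeval (y + t • w) (p + q) * z)) =
        fun t : ℂ => D.F (aeval (y + t • w) p * z) + D.F (aeval (y + t • w) q * z) := by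
      funext t
      rw [map_add, add_mul, map_add]
    rw [e]
    refine ((hp z).add (hq z)).congr_deriv ?_
    simp only [derivative_add, map_add, add_mul]
  | monomial n a =>
    intro z
    have e : (fun t : ℂ => D.F (aeval (y + t • w) (monomial n a) * z)) =
        fun t : ℂ => a • D.F ((y + t • w) ^ n * z) := by
      funext t
      rw [← map_smul, aeval_monomial, mul_assoc, ← Algebra.smul_def]
    rw [e]
    refine ((hpow n z).const_smul a).congr_deriv ?_
    rw [← map_smul, derivative_monomial, aeval_monomial]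
    congr 1
    rw [smul_smul, Algebra.smul_def]
    ring

end BAux

open BAux in
theorem B {R : Type*} [CommRing R] [Algebra ℂ R] [TopologicalSpace R] [IsTopologicalRing R]
    [ContinuousSMul ℂ R] {I : Ideal R}
    {H : Type*} [NormedAddCommGroup H] [InnerProductSpace ℂ H] [CompleteSpace H]
    (D : Data R I H) : StmtB D := by
  intro q hq y hy w hw e he
  have hmem : ∀ x ∈ I, aeval x q ∈ I := by
    intro x hx
    obtain ⟨r, hr⟩ : X ∣ q := X_dvd_iff.2 hq
    rw [hr, map_mul, aeval_X]
    exact I.mul_mem_right _ hx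
  have hyt : ∀ t : ℂ, y + t • w ∈ I := fun t => I.add_mem hy (by
    rw [Algebra.smul_def]; exact I.mul_mem_left _ hw)
  have hc := hmem y hy
  -- derivative of the first factor
  have d1 : HasDerivAt (fun t : ℂ => exp (D.E (y + t • w))) (exp (D.E y) * D.E w) 0 := by
    have e1 : (fun t : ℂ => exp (D.E (y + t • w))) =
        fun t : ℂ => exp (D.E y) * exp (t • D.E w) := by
      funext t
      rw [map_add, map_smul]
      refine exp_add ?_
      rw [mul_smul_comm, smul_mul_assoc, D.EE _ hy _ hw]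
    rw [e1]
    have := (hasDerivAt_exp_smul_const (𝕂 := ℂ) (D.E w) 0).const_mul (exp (D.E y))
    refine this.congr_deriv ?_
    rw [zero_smul, exp_zero, one_mul]
  -- derivative of the second factor
  have d2 : HasDerivAt (fun t : ℂ => exp (D.F (aeval (y + t • w) q)))
      (exp (D.F (aeval y q)) * D.F (aeval y (derivative q) * w)) 0 := by
    have e1 : (fun t : ℂ => exp (D.F (aeval (y + t • w) q))) =
        fun t : ℂ => exp (D.F (aeval y q)) *
          exp (D.F (aeval (y + t • w) q) - D.F (aeval y q)) := by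
      funext t
      have e2 : D.F (aeval (y + t • w) q) = D.F (aeval y q) +
          (D.F (aeval (y + t • w) q) - D.F (aeval y q)) := by abel
      rw [← exp_add (by rw [mul_sub, sub_mul, D.FF _ hc _ (hmem _ (hyt t))]), ← e2]
    rw [e1]
    have h1 : HasDerivAt (fun t : ℂ => D.F (aeval (y + t • w) q) - D.F (aeval y q))
        (D.F (aeval y (derivative q) * w)) 0 := by
      have := (polyF D q y w 1).sub_const (D.F (aeval y q))
      simpa only [mul_one] using this
    have h2 : HasFDerivAt (exp : (H →L[ℂ] H) → (H →L[ℂ] H)) (1 : (H →L[ℂ] H) →L[ℂ] (H →L[ℂ] H))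
        (D.F (aeval (y + (0 : ℂ) • w) q) - D.F (aeval y q)) := by
      rw [zero_smul, add_zero, sub_self]
      exact hasFDerivAt_exp_zero
    have h3 := (h2.comp_hasDerivAt (0 : ℂ) h1).const_mul (exp (D.F (aeval y q)))
    exact h3
  have d3 := d1.mul d2
  obtain ⟨L, hL⟩ : ∃ L : (H →L[ℂ] H) →L[ℂ] ℂ, ∀ T, L T = ⟪D.v, T D.v⟫_ℂ :=
    ⟨(innerSL ℂ D.v).comp (ContinuousLinearMap.apply ℂ H D.v), fun T => rfl⟩
  have d4 := (L.hasFDerivAt).comp_hasDerivAt (0 : ℂ) d3
  have d5 : HasDerivAt (fun t : ℂ => D.G q (y + t • w))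
      (L (exp (D.E y) * D.E w * exp (D.F (aeval (y + (0 : ℂ) • w) q)) +
        exp (D.E (y + (0 : ℂ) • w)) *
          (exp (D.F (aeval y q)) * D.F (aeval y (derivative q) * w)))) 0 := by
    refine HasDerivAt.congr_of_eventuallyEq d4 (Eventually.of_forall fun t => ?_)
    show D.G q (y + t • w) = L _
    rw [hL]
    rfl
  refine d5.congr_deriv ?_
  rw [zero_smul, add_zero, map_add, hL, hL]
  have hqw : aeval y (derivative q) * w ∈ I := I.mul_mem_left _ hw
  have c1 : exp (D.E y) * D.E w * exp (D.F (aeval y q)) =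
      D.E w * (exp (D.E y) * exp (D.F (aeval y q))) := by
    rw [exp_comm (D.EE _ hy _ hw), mul_assoc]
  have c2 : exp (D.E y) * (exp (D.F (aeval y q)) * D.F (aeval y (derivative q) * w)) =
      exp (D.E y) * exp (D.F (aeval y q)) * D.F (aeval y (derivative q) * w) := by
    rw [mul_assoc]
  have c3 := b3 D hy hc hw he
  have c4 := b4 D hy hc hqw he
  rw [c1, c2, c4]
  have c5 : (D.E w * (exp (D.E y) * exp (D.F (aeval y q)))) D.v =
      D.E w ((exp (D.E y) * exp (D.F (aeval y q))) D.v) := rfl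
  rw [c5, c3]
  show _ = _ * ⟪D.v, (exp (D.E y) * exp (D.F (aeval y q))) D.v⟫_ℂ
  rw [← add_mul, ← map_add]
  congr 2
  rw [derivative_mul, derivative_X, one_mul, map_add, map_mul, aeval_X]
  ring

end Pool.Agent.R450.Cia
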