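import Pool.Agent.R450.Cia.Stmts

/-!
# MP_521103_al, piece C1: the polynomials `q_m` and locally uniform convergence
-/

namespace Pool.Agent.R450.Cia

open Filter Topology Polynomial
open scoped InnerProductSpace Nat

lemma coeff_one_sub (a : ℂ) (N k : ℕ) :
    (((1 : ℂ[X]) - C a * X) ^ N).coeff k = (N.choose k : ℂ) * (-a) ^ k := by
  have h : ((1 : ℂ[X]) - C a * X) ^ N = ((1 + X) ^ N).comp (C (-a) * X) := by
    simp [pow_comp, sub_eq_add_neg]
  rw [h, comp_C_mul_X_coeff, coeff_one_add_X_pow]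

/-- `P_m = (1 + X)(1 - X/(m+1))^{m+1}`. -/
noncomputable def Pm (m : ℕ) : ℂ[X] := (1 + X) * (1 - C (((m : ℂ) + 1)⁻¹) * X) ^ (m + 1)

/-- `q_m = (P_m - 1)/X`. -/
noncomputable def qm (m : ℕ) : ℂ[X] := (Pm m).divX

lemma Pm_coeff_zero (m : ℕ) : (Pm m).coeff 0 = 1 := by
  unfold Pm
  rw [mul_coeff_zero, coeff_one_sub]
  simp

lemma qm_mul_X (m : ℕ) : qm m * X + 1 = Pm m := by
  have := divX_mul_X_add (Pm m)
  rwa [Pm_coeff_zero, C_1] at this

lemma Pm_coeff_succ (m k : ℕ) : (Pm m).coeff (k + 1) =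
    ((m + 1).choose (k + 1) : ℂ) * (-((m : ℂ) + 1)⁻¹) ^ (k + 1)
      + ((m + 1).choose k : ℂ) * (-((m : ℂ) + 1)⁻¹) ^ k := by
  unfold Pm
  rw [add_mul, one_mul, coeff_add, coeff_X_mul, coeff_one_sub, coeff_one_sub]

lemma qm_coeff (m k : ℕ) : (qm m).coeff k =
    ((m + 1).choose (k + 1) : ℂ) * (-((m : ℂ) + 1)⁻¹) ^ (k + 1)
      + ((m + 1).choose k : ℂ) * (-((m : ℂ) + 1)⁻¹) ^ k := by
  unfold qm
  rw [coeff_divX, Pm_coeff_succ]

lemma m1_ne (m : ℕ) : ((m : ℂ) + 1) ≠ 0 := Nat.cast_add_one_ne_zero m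

lemma qm_coeff_zero (m : ℕ) : (qm m).coeff 0 = 0 := by
  rw [qm_coeff]
  have := m1_ne m
  simp only [zero_add, Nat.choose_one_right, Nat.choose_zero_right, pow_one, pow_zero]
  push_cast
  field_simp
  ring

/-- the limits of the coefficients of `q_m` -/
noncomputable def kap (k : ℕ) : ℂ := (-1) ^ (k + 1) / ((k + 1)! : ℂ) + (-1) ^ k / (k ! : ℂ)

lemma kap_zero : kap 0 = 0 := by simp [kap]

lemma norm_b_le (m k : ℕ) :
    ‖((m + 1).choose k : ℂ) * (-((m : ℂ) + 1)⁻¹) ^ k‖ ≤ 1 / (k ! : ℝ) := by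
  have h1 : ((m + 1).choose k : ℝ) ≤ ((m + 1 : ℕ) : ℝ) ^ k / (k ! : ℝ) :=
    Nat.choose_le_pow_div k (m + 1)
  have h2 : (0 : ℝ) < (m : ℝ) + 1 := by positivity
  have h3 : ‖((m : ℂ) + 1)‖ = (m : ℝ) + 1 := by
    have : ((m : ℂ) + 1) = (((m : ℝ) + 1 : ℝ) : ℂ) := by push_cast; ring
    rw [this, Complex.norm_real, Real.norm_of_nonneg h2.le]
  rw [norm_mul, norm_pow, norm_neg, norm_inv, h3, Complex.norm_natCast]
  calc ((m + 1).choose k : ℝ) * (((m : ℝ) + 1)⁻¹) ^ k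
      ≤ ((m + 1 : ℕ) : ℝ) ^ k / (k ! : ℝ) * (((m : ℝ) + 1)⁻¹) ^ k := by
        gcongr
    _ = 1 / (k ! : ℝ) := by
        push_cast
        rw [inv_pow]
        field_simp

lemma tendsto_b (k : ℕ) : Tendsto (fun m : ℕ => ((m + 1).choose k : ℂ) * (-((m : ℂ) + 1)⁻¹) ^ k)
    atTop (𝓝 ((-1) ^ k / (k ! : ℂ))) := by
  have h1 : Tendsto (fun n : ℕ => (n.choose k : ℝ) * ((n : ℝ)⁻¹) ^ k) atTop
      (𝓝 (1 ^ k / (k ! : ℝ))) := by
    apply ProbabilityTheory.tendsto_choose_mul_pow_atTop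
    refine (tendsto_const_nhds (x := (1 : ℝ))).congr' ?_
    filter_upwards [eventually_ne_atTop 0] with n hn
    field_simp
  have h2 := h1.comp (tendsto_add_atTop_nat 1)
  have h3 := (Complex.continuous_ofReal.tendsto _).comp h2
  have h4 := h3.const_mul ((-1 : ℂ) ^ k)
  convert h4 using 2
  · simp only [Function.comp_apply]
    push_cast
    rw [neg_pow]
    ring
  · push_cast
    simp [div_eq_mul_inv]

lemma tendsto_qm_coeff (k : ℕ) : Tendsto (fun m => (qm m).coeff k) atTop (𝓝 (kap k)) := by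
  simp only [qm_coeff]
  exact (tendsto_b (k + 1)).add (tendsto_b k)

lemma norm_qm_coeff_le (m k : ℕ) : ‖(qm m).coeff k‖ ≤ 2 / (k ! : ℝ) := by
  rw [qm_coeff]
  refine (norm_add_le _ _).trans ?_
  have h1 := norm_b_le m (k + 1)
  have h2 := norm_b_le m k
  have h3 : 1 / ((k + 1)! : ℝ) ≤ 1 / (k ! : ℝ) := by
    apply one_div_le_one_div_of_le
    · exact_mod_cast Nat.factorial_pos k
    · exact_mod_cast Nat.factorial_le (Nat.le_succ k)
  calc _ ≤ 1 / ((k + 1)! : ℝ) + 1 / (k ! : ℝ) := add_le_add h1 h2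
    _ ≤ 1 / (k ! : ℝ) + 1 / (k ! : ℝ) := by gcongr
    _ = 2 / (k ! : ℝ) := by ring

lemma summable_fact (c ρ : ℝ) : Summable (fun k : ℕ => c / (k ! : ℝ) * ρ ^ k) := by
  have := (Real.summable_pow_div_factorial ρ).mul_left c
  refine this.congr fun k => ?_
  ring

lemma tannery {c : ℕ → ℕ → ℂ} {κ : ℕ → ℂ} {M : ℝ} (hb : ∀ m k, ‖c m k‖ ≤ M / (k ! : ℝ))
    (hlim : ∀ k, Tendsto (fun m => c m k) atTop (𝓝 (κ k))) {ρ : ℝ} (hρ : 0 < ρ) :
    Tendsto (fun m => ∑' k, ‖c m k - κ k‖ * ρ ^ k) atTop (𝓝 0) := by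
  have hκ : ∀ k, ‖κ k‖ ≤ M / (k ! : ℝ) := fun k =>
    le_of_tendsto (hlim k).norm (Eventually.of_forall fun m => hb m k)
  have h0 : (0 : ℝ) = ∑' k : ℕ, (0 : ℝ) := by simp
  rw [h0]
  refine tendsto_tsum_of_dominated_convergence (bound := fun k => 2 * M / (k ! : ℝ) * ρ ^ k)
    (summable_fact (2 * M) ρ) (fun k => ?_) (Eventually.of_forall fun m k => ?_)
  · have h1 : Tendsto (fun m => ‖c m k - κ k‖) atTop (𝓝 0) := by
      have := ((hlim k).sub_const (κ k)).norm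
      simpa using this
    simpa using h1.mul_const (ρ ^ k)
  · rw [Real.norm_of_nonneg (by positivity)]
    gcongr
    calc ‖c m k - κ k‖ ≤ ‖c m k‖ + ‖κ k‖ := norm_sub_le _ _
      _ ≤ M / (k ! : ℝ) + M / (k ! : ℝ) := add_le_add (hb m k) (hκ k)
      _ = 2 * M / (k ! : ℝ) := by ring

section

variable {R : Type*} [CommRing R] [Algebra ℂ R] [TopologicalSpace R] [IsTopologicalRing R]
  [ContinuousSMul ℂ R]
  {B : Type*} [NormedAddCommGroup B] [NormedSpace ℂ B] [CompleteSpace B]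

lemma local_bound (hA1 : StmtA1 R) (T : R →ₗ[ℂ] B) (hT : Continuous T) (y0 : R) :
    ∃ N ∈ 𝓝 y0, ∃ ρ : ℝ, 0 < ρ ∧ ∀ y ∈ N, ∀ k : ℕ, 1 ≤ k → ‖T (y ^ k)‖ ≤ ρ ^ k := by
  have hU : {x : R | ‖T x‖ ≤ 1} ∈ 𝓝 (0 : R) := by
    have h1 : Tendsto (fun x => ‖T x‖) (𝓝 0) (𝓝 0) := by
      have := (hT.norm).tendsto (0 : R)
      simpa using this
    filter_upwards [h1.eventually (Iic_mem_nhds (zero_lt_one))] with x hx using hx
  obtain ⟨V, hV, hVU⟩ := hA1 _ hU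
  have hc : Tendsto (fun t : ℝ => (t : ℂ) • y0) (𝓝 0) (𝓝 0) := by
    have : Continuous (fun t : ℝ => (t : ℂ) • y0) := by fun_prop
    have := this.tendsto 0
    simpa using this
  have h2 : ∀ᶠ t : ℝ in 𝓝[>] 0, (t : ℂ) • y0 ∈ interior V :=
    (hc.mono_left nhdsWithin_le_nhds).eventually (interior_mem_nhds.2 hV)
  obtain ⟨r, hr, hr0⟩ := (h2.and self_mem_nhdsWithin).exists
  have hr0 : 0 < r := hr0
  refine ⟨{y | (r : ℂ) • y ∈ interior V}, ?_, r⁻¹, inv_pos.2 hr0, fun y hy k hk => ?_⟩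
  · have : Continuous (fun y : R => (r : ℂ) • y) := by fun_prop
    exact this.continuousAt.preimage_mem_nhds (isOpen_interior.mem_nhds hr)
  · have h3 : ‖T (((r : ℂ) • y) ^ k)‖ ≤ 1 := hVU _ (interior_subset hy) k hk
    rw [_root_.smul_pow, map_smul, norm_smul, norm_pow, Complex.norm_real,
      Real.norm_of_nonneg hr0.le] at h3
    rw [inv_pow, ← one_div, le_div_iff₀ (pow_pos hr0 k)]
    linarith [mul_comm (r ^ k) ‖T (y ^ k)‖]

/-- `∑ κ_k T(y^k)` -/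
noncomputable def Ser (T : R →ₗ[ℂ] B) (κ : ℕ → ℂ) (y : R) : B := ∑' k, κ k • T (y ^ k)

omit [TopologicalSpace R] [IsTopologicalRing R] [ContinuousSMul ℂ R] [CompleteSpace B] in
lemma T_aeval (T : R →ₗ[ℂ] B) (q : ℂ[X]) (y : R) :
    T (aeval y q) = ∑' k, q.coeff k • T (y ^ k) := by
  rw [aeval_eq_sum_range, map_sum, tsum_eq_sum (s := Finset.range (q.natDegree + 1))]
  · exact Finset.sum_congr rfl fun k _ => by rw [map_smul]
  · intro k hk
    rw [coeff_eq_zero_of_natDegree_lt (by simpa using hk), zero_smul]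

lemma norm_kap_le (k : ℕ) : ‖kap k‖ ≤ 2 / (k ! : ℝ) :=
  le_of_tendsto (tendsto_qm_coeff k).norm (Eventually.of_forall fun m => norm_qm_coeff_le m k)

lemma Ser_tendsto (hA1 : StmtA1 R) (T : R →ₗ[ℂ] B) (hT : Continuous T) :
    TendstoLocallyUniformly (fun m y => T (aeval y (qm m))) (Ser T kap) atTop := by
  rw [Metric.tendstoLocallyUniformly_iff]
  intro ε hε y0
  obtain ⟨N, hN, ρ, hρ, hb⟩ := local_bound hA1 T hT y0
  refine ⟨N, hN, ?_⟩
  have hlim := tannery (fun m k => norm_qm_coeff_le m k) tendsto_qm_coeff hρ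
  filter_upwards [hlim.eventually (Iio_mem_nhds hε)] with m hm y hy
  have hcoef : ∀ (c : ℕ → ℂ), c 0 = 0 → ∀ k, ‖c k • T (y ^ k)‖ ≤ ‖c k‖ * ρ ^ k := by
    intro c hc k
    rcases Nat.eq_zero_or_pos k with rfl | hk
    · simp [hc]
    · rw [norm_smul]
      gcongr
      exact hb y hy k hk
  have hsum : ∀ (c : ℕ → ℂ), c 0 = 0 → (∀ k, ‖c k‖ ≤ 2 / (k ! : ℝ)) →
      Summable (fun k => c k • T (y ^ k)) := by
    intro c hc hc2
    refine Summable.of_norm_bounded (summable_fact 2 ρ) fun k => ?_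
    refine (hcoef c hc k).trans ?_
    gcongr
    exact hc2 k
  have hs1 := hsum kap kap_zero norm_kap_le
  have hs2 := hsum (fun k => (qm m).coeff k) (qm_coeff_zero m) (norm_qm_coeff_le m)
  rw [dist_comm, dist_eq_norm, T_aeval, Ser, ← hs2.tsum_sub hs1]
  have h3 : Summable (fun k => ‖(qm m).coeff k - kap k‖ * ρ ^ k) := by
    refine Summable.of_nonneg_of_le (fun k => by positivity) (fun k => ?_) (summable_fact 4 ρ)
    gcongr
    calc ‖(qm m).coeff k - kap k‖ ≤ ‖(qm m).coeff k‖ + ‖kap k‖ := norm_sub_le _ _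
      _ ≤ 2 / (k ! : ℝ) + 2 / (k ! : ℝ) := add_le_add (norm_qm_coeff_le m k) (norm_kap_le k)
      _ = 4 / (k ! : ℝ) := by ring
  calc ‖∑' k, ((qm m).coeff k • T (y ^ k) - kap k • T (y ^ k))‖
      ≤ ∑' k, ‖(qm m).coeff k - kap k‖ * ρ ^ k := by
        refine tsum_of_norm_bounded h3.hasSum fun k => ?_
        rw [← sub_smul]
        exact hcoef (fun k => (qm m).coeff k - kap k) (by simp [qm_coeff_zero, kap_zero]) k
    _ < ε := hm

lemma Ser_continuous (hA1 : StmtA1 R) (T : R →ₗ[ℂ] B) (hT : Continuous T) :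
    Continuous (Ser T kap) := by
  refine (Ser_tendsto hA1 T hT).continuous (Eventually.of_forall fun m => ?_).frequently
  exact hT.comp (Polynomial.continuous_aeval _)

/-- continuous convergence -/
lemma Ser_cc (hA1 : StmtA1 R) (T : R →ₗ[ℂ] B) (hT : Continuous T) (x : R) :
    Tendsto (fun p : ℕ × R => T (aeval p.2 (qm p.1))) (atTop ×ˢ 𝓝 x) (𝓝 (Ser T kap x)) := by
  have h1 := (Ser_tendsto hA1 T hT)
  rw [tendstoLocallyUniformly_iff_forall_tendsto] at h1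
  have h2 := h1 x
  have h3 : Tendsto (fun p : ℕ × R => Ser T kap p.2) (atTop ×ˢ 𝓝 x) (𝓝 (Ser T kap x)) :=
    ((Ser_continuous hA1 T hT).tendsto x).comp tendsto_snd
  exact h3.congr_uniformity h2

end

end Pool.Agent.R450.Cia
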