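import Pool.Agent.R450.Cia.C1

/-!
# MP_521103_al, piece C2: the extension `Φ(1+y) = f(y)`
-/

namespace Pool.Agent.R450.Cia

open Filter Topology Polynomial
open scoped InnerProductSpace Nat

variable {R : Type*} [CommRing R] [Algebra ℂ R] [TopologicalSpace R] [IsTopologicalRing R]
  [ContinuousSMul ℂ R] {I : Ideal R}
  {H : Type*} [NormedAddCommGroup H] [InnerProductSpace ℂ H] [CompleteSpace H]

/-- `f(y) = Φ(1+y)` -/
noncomputable def Data.f (D : Data R I H) (y : R) : ℂ :=
  Complex.exp (D.lam y) *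
    ⟪D.v, (NormedSpace.exp (D.E y) * NormedSpace.exp (Ser D.F kap y)) D.v⟫_ℂ

noncomputable def Data.fm (D : Data R I H) (m : ℕ) (y : R) : ℂ :=
  Complex.exp (D.lam y) * D.G (qm m) y

omit [IsTopologicalRing R] [ContinuousSMul ℂ R] in
lemma f_zero (D : Data R I H) : D.f 0 = 1 := by
  have h : Ser D.F kap (0 : R) = 0 := by
    unfold Ser
    have : ∀ k, kap k • D.F ((0 : R) ^ k) = 0 := by
      intro k
      rcases Nat.eq_zero_or_pos k with rfl | hk
      · simp [kap_zero]
      · simp [zero_pow hk.ne']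
    simp [this]
  unfold Data.f
  rw [h]
  simp [NormedSpace.exp_zero, inner_self_eq_norm_sq_to_K, D.norm_v]

lemma cont_exp : Continuous (NormedSpace.exp : (H →L[ℂ] H) → (H →L[ℂ] H)) :=
  continuous_iff_continuousAt.2 fun x =>
    (NormedSpace.exp_analytic (𝕂 := ℂ) x).continuousAt

lemma cc (hA1 : StmtA1 R) (D : Data R I H) (x : R) :
    Tendsto (fun p : ℕ × R => D.fm p.1 p.2) (atTop ×ˢ 𝓝 x) (𝓝 (D.f x)) := by
  have h1 := Ser_cc hA1 D.F D.contF x
  have h2 : Tendsto (fun p : ℕ × R => D.E p.2) (atTop ×ˢ 𝓝 x) (𝓝 (D.E x)) :=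
    (D.contE.tendsto x).comp tendsto_snd
  have h3 : Tendsto (fun p : ℕ × R => D.lam p.2) (atTop ×ˢ 𝓝 x) (𝓝 (D.lam x)) :=
    (D.contlam.tendsto x).comp tendsto_snd
  have h4 := ((cont_exp.tendsto _).comp h2).mul ((cont_exp.tendsto _).comp h1)
  have h5 : Continuous (fun T : H →L[ℂ] H => ⟪D.v, T D.v⟫_ℂ) := by fun_prop
  exact ((Complex.continuous_exp.tendsto _).comp h3).mul ((h5.tendsto _).comp h4)

lemma f_continuous (hA1 : StmtA1 R) (D : Data R I H) : Continuous D.f := by
  unfold Data.f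
  have h1 := Ser_continuous hA1 D.F D.contF
  have h5 : Continuous (fun T : H →L[ℂ] H => ⟪D.v, T D.v⟫_ℂ) := by fun_prop
  exact (Complex.continuous_exp.comp D.contlam).mul
    (h5.comp ((cont_exp.comp D.contE).mul (cont_exp.comp h1)))

lemma line_cont (y w : R) : Continuous (fun t : ℂ => y + t • w) := by fun_prop

lemma line_tendsto (hA1 : StmtA1 R) (D : Data R I H) (y w : R) :
    TendstoLocallyUniformlyOn (fun m (t : ℂ) => D.fm m (y + t • w)) (fun t : ℂ => D.f (y + t • w))
      atTop Set.univ := by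
  rw [tendstoLocallyUniformlyOn_univ, tendstoLocallyUniformly_iff_forall_tendsto]
  intro t
  have h1 : Tendsto (fun p : ℕ × ℂ => D.f (y + p.2 • w)) (atTop ×ˢ 𝓝 t)
      (𝓝 (D.f (y + t • w))) :=
    (((f_continuous hA1 D).comp (line_cont y w)).tendsto t).comp tendsto_snd
  have h2 : Tendsto (fun p : ℕ × ℂ => D.fm p.1 (y + p.2 • w)) (atTop ×ˢ 𝓝 t)
      (𝓝 (D.f (y + t • w))) := by
    have h3 : Tendsto (fun p : ℕ × ℂ => (p.1, y + p.2 • w)) (atTop ×ˢ 𝓝 t)
        (atTop ×ˢ 𝓝 (y + t • w)) :=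
      tendsto_fst.prodMk (((line_cont y w).tendsto t).comp tendsto_snd)
    exact (cc hA1 D (y + t • w)).comp h3
  exact (h1.prodMk_nhds h2).mono_right (nhds_le_uniformity _)

lemma differentiable_T (T : R →ₗ[ℂ] (H →L[ℂ] H)) (q : ℂ[X]) (y w : R) :
    Differentiable ℂ (fun t : ℂ => T (aeval (y + t • w) q)) := by
  have h : ∀ k : ℕ, Differentiable ℂ (fun t : ℂ => T ((y + t • w) ^ k)) := by
    intro k
    have h1 : (fun t : ℂ => T ((y + t • w) ^ k)) = fun t : ℂ =>
        ∑ j ∈ Finset.range (k + 1), t ^ (k - j) • T (y ^ j * w ^ (k - j) * (k.choose j : R)) := by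
      funext t
      rw [add_pow, map_sum]
      refine Finset.sum_congr rfl fun j _ => ?_
      rw [_root_.smul_pow, ← map_smul]
      congr 1
      rw [mul_smul_comm, smul_mul_assoc]
    rw [h1]
    fun_prop
  have h2 : (fun t : ℂ => T (aeval (y + t • w) q)) = fun t : ℂ =>
      ∑ k ∈ Finset.range (q.natDegree + 1), q.coeff k • T ((y + t • w) ^ k) := by
    funext t
    rw [aeval_eq_sum_range, map_sum]
    exact Finset.sum_congr rfl fun k _ => by rw [map_smul]
  rw [h2]
  exact Differentiable.fun_sum fun k _ => (h k).fun_const_smul (q.coeff k)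

lemma fm_differentiable (D : Data R I H) (m : ℕ) (y w : R) :
    Differentiable ℂ (fun t : ℂ => D.fm m (y + t • w)) := by
  have h1 := differentiable_T D.F (qm m) y w
  have h2 : Differentiable ℂ (fun t : ℂ => D.E (y + t • w)) := by
    have : (fun t : ℂ => D.E (y + t • w)) = fun t : ℂ => D.E y + t • D.E w := by
      funext t; rw [map_add, map_smul]
    rw [this]; fun_prop
  have h3 : Differentiable ℂ (fun t : ℂ => D.lam (y + t • w)) := by
    have : (fun t : ℂ => D.lam (y + t • w)) = fun t : ℂ => D.lam y + t • D.lam w := by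
      funext t; rw [map_add, map_smul]
    rw [this]; fun_prop
  have hexp : ∀ g : ℂ → (H →L[ℂ] H), Differentiable ℂ g →
      Differentiable ℂ (fun t => NormedSpace.exp (g t)) := fun g hg t =>
    (NormedSpace.exp_analytic (𝕂 := ℂ) (g t)).differentiableAt.comp t (hg t)
  have h4 := (hexp _ h2).mul (hexp _ h1)
  have h5 : Differentiable ℂ (fun t : ℂ => ⟪D.v, (NormedSpace.exp (D.E (y + t • w)) *
      NormedSpace.exp (D.F (aeval (y + t • w) (qm m)))) D.v⟫_ℂ) := by
    have := (innerSL ℂ D.v).differentiable.comp (h4.clm_apply (differentiable_const D.v))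
    exact this
  exact (Complex.differentiable_exp.comp h3).mul h5

lemma f_differentiable (hA1 : StmtA1 R) (D : Data R I H) (y w : R) :
    Differentiable ℂ (fun t : ℂ => D.f (y + t • w)) := by
  have := (line_tendsto hA1 D y w).differentiableOn
    (Eventually.of_forall fun m => (fm_differentiable D m y w).differentiableOn) isOpen_univ
  exact differentiableOn_univ.1 this

end Pool.Agent.R450.Cia
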