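import Pool.Agent.R450.Cia.C2

/-!
# MP_521103_al, piece C3: derivative, multiplicativity, exponentials
-/

namespace Pool.Agent.R450.Cia

open Filter Topology Polynomial
open scoped InnerProductSpace Nat

variable {R : Type*} [CommRing R] [Algebra ℂ R] [TopologicalSpace R] [IsTopologicalRing R]
  [ContinuousSMul ℂ R] {I : Ideal R}
  {H : Type*} [NormedAddCommGroup H] [InnerProductSpace ℂ H] [CompleteSpace H]

lemma deriv_Xqm (m : ℕ) : derivative (X * qm m) =
    (1 - C (((m : ℂ) + 1)⁻¹) * X) ^ (m + 1) - (1 + X) * (1 - C (((m : ℂ) + 1)⁻¹) * X) ^ m := by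
  have h1 : X * qm m = Pm m - 1 := by rw [← qm_mul_X]; ring
  have hC : (C ((m : ℂ) + 1) : ℂ[X]) * C (((m : ℂ) + 1)⁻¹) = 1 := by
    rw [← C_mul, mul_inv_cancel₀ (m1_ne m), C_1]
  rw [h1]
  unfold Pm
  rw [derivative_sub, derivative_one, sub_zero, derivative_mul, derivative_pow]
  simp only [derivative_add, derivative_one, derivative_X, derivative_sub, derivative_C_mul,
    zero_add, zero_sub, one_mul, mul_one, Nat.add_sub_cancel]
  push_cast
  linear_combination (-(1 + X) * (1 - C (((m : ℂ) + 1)⁻¹) * X) ^ m) * hC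

/-- (*) derivative of `f` at a point `y` with `1 + y` invertible. -/
lemma f_hasDerivAt (hopen : IsOpen {u : R | IsUnit u})
    (hinv : ContinuousOn Ring.inverse {u : R | IsUnit u}) (hA1 : StmtA1 R) (D : Data R I H)
    (hB : StmtB D) {y w e : R} (hy : y ∈ I) (hw : w ∈ I) (he : (1 + y) * e = 1) :
    HasDerivAt (fun t : ℂ => D.f (y + t • w)) (D.lam (w * e) * D.f y) 0 := by
  have hd := line_tendsto hA1 D y w
  have hderiv := hd.deriv
    (Eventually.of_forall fun m => (fm_differentiable D m y w).differentiableOn) isOpen_univ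
  have h1 : Tendsto (fun m => deriv (fun t : ℂ => D.fm m (y + t • w)) 0) atTop
      (𝓝 (deriv (fun t : ℂ => D.f (y + t • w)) 0)) := by
    have := hderiv.tendsto_at (Set.mem_univ (0 : ℂ))
    exact this
  -- inverse of `1 - y/(m+1)`
  have hlim : Tendsto (fun m : ℕ => (1 : R) - ((m : ℂ) + 1)⁻¹ • y) atTop (𝓝 1) := by
    have h2 : Tendsto (fun m : ℕ => ((m : ℂ) + 1)⁻¹) atTop (𝓝 0) := by
      have := tendsto_one_div_add_atTop_nhds_zero_nat (𝕜 := ℂ)
      simpa [one_div] using this
    have h3 := (tendsto_const_nhds (x := (1 : R))).sub (h2.smul_const y)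
    simpa using h3
  have hunit : ∀ᶠ m : ℕ in atTop, IsUnit ((1 : R) - ((m : ℂ) + 1)⁻¹ • y) :=
    hlim.eventually (hopen.mem_nhds (by simp : (1 : R) ∈ {u : R | IsUnit u}))
  have hinv1 : Tendsto (fun m : ℕ => Ring.inverse ((1 : R) - ((m : ℂ) + 1)⁻¹ • y)) atTop
      (𝓝 1) := by
    have h4 : ContinuousAt (Ring.inverse : R → R) 1 :=
      hinv.continuousAt (hopen.mem_nhds (by simp : (1 : R) ∈ {u : R | IsUnit u}))
    have := h4.tendsto.comp hlim
    rwa [Ring.inverse_one] at this
  have hev : ∀ᶠ m : ℕ in atTop, deriv (fun t : ℂ => D.fm m (y + t • w)) 0 =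
      (D.lam w + D.lam (w * (e - Ring.inverse ((1 : R) - ((m : ℂ) + 1)⁻¹ • y)))) * D.fm m y := by
    filter_upwards [hunit] with m hm
    set a : R := (1 : R) - ((m : ℂ) + 1)⁻¹ • y with ha
    set a' : R := Ring.inverse a with ha'
    have haa : a * a' = 1 := Ring.mul_inverse_cancel _ hm
    have hP : 1 + y * aeval y (qm m) = (1 + y) * a ^ (m + 1) := by
      have h5 := congrArg (aeval y) (qm_mul_X m)
      unfold Pm at h5
      simp only [map_add, map_mul, map_one, aeval_X, map_pow, map_sub, aeval_C] at h5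
      rw [ha, Algebra.smul_def, ← h5]
      ring
    have hinvq : (1 + y * aeval y (qm m)) * (e * a' ^ (m + 1)) = 1 := by
      rw [hP]
      calc (1 + y) * a ^ (m + 1) * (e * a' ^ (m + 1)) = ((1 + y) * e) * (a * a') ^ (m + 1) := by
            ring
        _ = 1 := by rw [he, haa, one_pow, one_mul]
    have h6 := hB (qm m) (qm_coeff_zero m) y hy w hw _ hinvq
    have h7 : w * aeval y (derivative (X * qm m)) * (e * a' ^ (m + 1)) = w * (e - a') := by
      rw [deriv_Xqm]
      simp only [map_sub, map_mul, map_one, aeval_X, map_pow, map_add, aeval_C]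
      rw [← Algebra.smul_def, ← ha]
      have h8 : a ^ (m + 1) * a' ^ (m + 1) = 1 := by rw [← mul_pow, haa, one_pow]
      have h9 : a ^ m * a' ^ (m + 1) = a' := by
        rw [pow_succ, ← mul_assoc, ← mul_pow, haa, one_pow, one_mul]
      calc w * (a ^ (m + 1) - (1 + y) * a ^ m) * (e * a' ^ (m + 1))
          = w * (e * (a ^ (m + 1) * a' ^ (m + 1)) - ((1 + y) * e) * (a ^ m * a' ^ (m + 1))) := by
            ring
        _ = w * (e - a') := by rw [h8, h9, he, mul_one, one_mul]
    rw [h7] at h6
    have h10 : HasDerivAt (fun t : ℂ => Complex.exp (D.lam (y + t • w)))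
        (Complex.exp (D.lam y) * D.lam w) 0 := by
      have h11 : HasDerivAt (fun t : ℂ => D.lam y + t * D.lam w) (D.lam w) 0 := by
        have := ((hasDerivAt_id (0 : ℂ)).mul_const (D.lam w)).const_add (D.lam y)
        simpa using this
      have h12 := h11.cexp
      have h13 : (fun t : ℂ => Complex.exp (D.lam (y + t • w))) =
          fun t : ℂ => Complex.exp (D.lam y + t * D.lam w) := by
        funext t; rw [map_add, map_smul, smul_eq_mul]
      rw [h13]
      simpa using h12
    have h14 := (h10.mul h6).deriv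
    unfold Data.fm
    have h15 : (fun t : ℂ => Complex.exp (D.lam (y + t • w)) * D.G (qm m) (y + t • w)) =
      ((fun t : ℂ => Complex.exp (D.lam (y + t • w))) * fun t : ℂ => D.G (qm m) (y + t • w)) := rfl
    rw [h15, h14]
    simp only [zero_smul, add_zero]
    ring
  have h16 : Tendsto (fun m => D.fm m y) atTop (𝓝 (D.f y)) := by
    have := (cc hA1 D y).comp (tendsto_id.prodMk (tendsto_const_nhds (x := y)))
    exact this
  have h17 : Tendsto (fun m : ℕ => (D.lam w + D.lam (w * (e - Ring.inverse ((1 : R)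
      - ((m : ℂ) + 1)⁻¹ • y)))) * D.fm m y) atTop (𝓝 ((D.lam w + D.lam (w * (e - 1))) * D.f y)) := by
    refine (tendsto_const_nhds.add ?_).mul h16
    exact (D.contlam.tendsto _).comp ((tendsto_const_nhds.sub hinv1).const_mul w)
  have h18 : deriv (fun t : ℂ => D.f (y + t • w)) 0 = D.lam (w * e) * D.f y := by
    refine tendsto_nhds_unique h1 ((h17.congr' (hev.mono fun m hm => hm.symm)).trans ?_)
    have : D.lam w + D.lam (w * (e - 1)) = D.lam (w * e) := by
      rw [← map_add]; congr 1; ring
    rw [this]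
  rw [← h18]
  exact (f_differentiable hA1 D y w 0).hasDerivAt

end Pool.Agent.R450.Cia
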