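import Pool.Agent.R450.Cia.C3

/-!
# MP_521103_al, piece C4: multiplicativity, exponentials
-/

namespace Pool.Agent.R450.Cia

open Filter Topology Polynomial
open scoped InnerProductSpace Nat

variable {R : Type*} [CommRing R] [Algebra ℂ R] [TopologicalSpace R] [IsTopologicalRing R]
  [ContinuousSMul ℂ R] {I : Ideal R}
  {H : Type*} [NormedAddCommGroup H] [InnerProductSpace ℂ H] [CompleteSpace H]

lemma line_hasDerivAt (hopen : IsOpen {u : R | IsUnit u})
    (hinv : ContinuousOn Ring.inverse {u : R | IsUnit u}) (hA1 : StmtA1 R) (D : Data R I H)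
    (hB : StmtB D) {y w e : R} (hy : y ∈ I) (hw : w ∈ I) (t : ℂ) (he : (1 + (y + t • w)) * e = 1) :
    HasDerivAt (fun s : ℂ => D.f (y + s • w)) (D.lam (w * e) * D.f (y + t • w)) t := by
  have hmem : y + t • w ∈ I := I.add_mem hy (Submodule.smul_of_tower_mem I t hw)
  have h := f_hasDerivAt hopen hinv hA1 D hB hmem hw he
  have h2 : HasDerivAt (fun s : ℂ => D.f (y + t • w + s • w)) (D.lam (w * e) * D.f (y + t • w))
      (t - t) := by rwa [sub_self]
  have h3 := h2.comp_sub_const t t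
  refine h3.congr_of_eventuallyEq (Eventually.of_forall fun s => ?_)
  simp only
  congr 1
  rw [sub_smul]
  abel

lemma unit_near (hopen : IsOpen {u : R | IsUnit u}) (b : R) :
    ∀ᶠ s : ℂ in 𝓝 0, IsUnit ((1 : R) + s • b) := by
  have hc : ContinuousAt (fun s : ℂ => (1 : R) + s • b) 0 :=
    (line_cont (1 : R) b).continuousAt
  have h : {u : R | IsUnit u} ∈ 𝓝 ((1 : R) + (0 : ℂ) • b) := hopen.mem_nhds (by simp)
  exact hc.eventually_mem h

lemma analytic_of (g : ℂ → ℂ) (hg : Differentiable ℂ g) : AnalyticOnNhd ℂ g Set.univ :=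
  hg.differentiableOn.analyticOnNhd isOpen_univ

lemma step1 (hopen : IsOpen {u : R | IsUnit u})
    (hinv : ContinuousOn Ring.inverse {u : R | IsUnit u}) (hA1 : StmtA1 R) (D : Data R I H)
    (hB : StmtB D) {y0 b e0 : R} (hy : y0 ∈ I) (hb : b ∈ I) (he : (1 + y0) * e0 = 1) (t : ℂ) :
    D.f (y0 + t • ((1 + y0) * b)) = D.f y0 * D.f (t • b) := by
  set w := (1 + y0) * b with hw
  have hwI : w ∈ I := I.mul_mem_left _ hb
  set h1 : ℂ → ℂ := fun s => D.f (y0 + s • w) with hh1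
  set h2 : ℂ → ℂ := fun s => D.f (0 + s • b) with hh2
  have d1 : Differentiable ℂ h1 := f_differentiable hA1 D y0 w
  have d2 : Differentiable ℂ h2 := f_differentiable hA1 D 0 b
  have h20 : h2 0 = 1 := by simp [hh2, f_zero]
  have ev1 : ∀ᶠ s : ℂ in 𝓝 0, IsUnit ((1 : R) + s • b) := by
    exact unit_near hopen b
  have ev2 : ∀ᶠ s : ℂ in 𝓝 0, h2 s ≠ 0 := by
    apply d2.continuous.continuousAt.eventually_ne
    rw [h20]; exact one_ne_zero
  obtain ⟨δ, hδ, hball⟩ := Metric.eventually_nhds_iff_ball.1 (ev1.and ev2)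
  have hder : ∀ s ∈ Metric.ball (0 : ℂ) δ, HasDerivAt (fun s => h1 s / h2 s) 0 s := by
    intro s hs
    obtain ⟨hu, hne⟩ := hball s hs
    set u' : R := Ring.inverse (1 + s • b) with hu'
    have huu : (1 + s • b) * u' = 1 := Ring.mul_inverse_cancel _ hu
    have e1 : (1 + (y0 + s • w)) * (e0 * u') = 1 := by
      have : 1 + (y0 + s • w) = (1 + y0) * (1 + s • b) := by
        rw [hw, mul_add, mul_one, mul_smul_comm]; ring
      rw [this]
      calc (1 + y0) * (1 + s • b) * (e0 * u') = ((1 + y0) * e0) * ((1 + s • b) * u') := by ring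
        _ = 1 := by rw [he, huu, one_mul]
    have e2 : (1 + ((0 : R) + s • b)) * u' = 1 := by rw [zero_add]; exact huu
    have g1 := line_hasDerivAt hopen hinv hA1 D hB hy hwI s e1
    have g2 := line_hasDerivAt hopen hinv hA1 D hB I.zero_mem hb s e2
    have e3 : w * (e0 * u') = b * u' := by
      rw [hw]
      calc (1 + y0) * b * (e0 * u') = ((1 + y0) * e0) * (b * u') := by ring
        _ = b * u' := by rw [he, one_mul]
    rw [e3] at g1
    have g3 := g1.div g2 hne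
    have : (D.lam (b * u') * D.f (y0 + s • w) * D.f (0 + s • b) -
        D.f (y0 + s • w) * (D.lam (b * u') * D.f (0 + s • b))) / D.f (0 + s • b) ^ 2 = 0 := by
      have : D.lam (b * u') * D.f (y0 + s • w) * D.f (0 + s • b) -
        D.f (y0 + s • w) * (D.lam (b * u') * D.f (0 + s • b)) = 0 := by ring
      rw [this, zero_div]
    rw [this] at g3
    exact g3
  have hconst : ∀ s ∈ Metric.ball (0 : ℂ) δ, h1 s / h2 s = h1 0 / h2 0 := by
    intro s hs
    refine Metric.isOpen_ball.is_const_of_deriv_eq_zero (f := fun s => h1 s / h2 s)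
      (convex_ball (0 : ℂ) δ).isPreconnected ?_ ?_ hs (Metric.mem_ball_self hδ)
    · exact fun x hx => (hder x hx).differentiableAt.differentiableWithinAt
    · exact fun x hx => (hder x hx).deriv
  have heq : h1 =ᶠ[𝓝 0] fun s => D.f y0 * h2 s := by
    filter_upwards [Metric.ball_mem_nhds (0 : ℂ) hδ] with s hs
    have h3 := hconst s hs
    have hne := (hball s hs).2
    rw [h20, div_one, div_eq_iff hne] at h3
    rw [h3]
    congr 1
    simp [hh1]
  have hall := AnalyticOnNhd.eq_of_eventuallyEq (analytic_of h1 d1)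
    (analytic_of _ (d2.const_mul (D.f y0))) heq
  have := congrFun hall t
  simp only [hh1, hh2, zero_add] at this
  exact this

/-- multiplicativity -/
lemma f_mul (hopen : IsOpen {u : R | IsUnit u})
    (hinv : ContinuousOn Ring.inverse {u : R | IsUnit u}) (hA1 : StmtA1 R) (D : Data R I H)
    (hB : StmtB D) {a b : R} (ha : a ∈ I) (hb : b ∈ I) :
    D.f (a + b + a * b) = D.f a * D.f b := by
  have d1 : Differentiable ℂ (fun s : ℂ => D.f (b + s • (a + a * b))) :=
    f_differentiable hA1 D b _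
  have d2 : Differentiable ℂ (fun s : ℂ => D.f (0 + s • a)) := f_differentiable hA1 D 0 a
  have ev1 : ∀ᶠ s : ℂ in 𝓝 0, IsUnit ((1 : R) + s • a) := by
    exact unit_near hopen a
  have heq : (fun s : ℂ => D.f (b + s • (a + a * b))) =ᶠ[𝓝 0]
      fun s : ℂ => D.f (0 + s • a) * D.f b := by
    filter_upwards [ev1] with s hs
    have h := step1 hopen hinv hA1 D hB (Submodule.smul_of_tower_mem I s ha) hb
      (Ring.mul_inverse_cancel _ hs) 1
    rw [one_smul, one_smul] at h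
    rw [zero_add, ← h]
    congr 1
    rw [smul_add, add_mul, one_mul, smul_mul_assoc]
    abel
  have hall := AnalyticOnNhd.eq_of_eventuallyEq (analytic_of _ d1)
    (analytic_of _ (d2.mul_const (D.f b))) heq
  have := congrFun hall 1
  simp only [one_smul, zero_add] at this
  rw [← this]
  congr 1
  ring

lemma f_pow (hopen : IsOpen {u : R | IsUnit u})
    (hinv : ContinuousOn Ring.inverse {u : R | IsUnit u}) (hA1 : StmtA1 R) (D : Data R I H)
    (hB : StmtB D) {x : R} (hx : x ∈ I) (n : ℕ) :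
    (1 + x) ^ n - 1 ∈ I ∧ D.f ((1 + x) ^ n - 1) = D.f x ^ n := by
  induction n with
  | zero => simp [f_zero]
  | succ n ih =>
    obtain ⟨h1, h2⟩ := ih
    have h3 : (1 + x) ^ (n + 1) - 1 = ((1 + x) ^ n - 1) + x + ((1 + x) ^ n - 1) * x := by ring
    rw [h3]
    refine ⟨I.add_mem (I.add_mem h1 hx) (I.mul_mem_left _ hx), ?_⟩
    rw [f_mul hopen hinv hA1 D hB h1 hx, h2, pow_succ]

/-- `(1 + X/n)^n - ∑_{k<n} X^k/k!` -/
noncomputable def Qn (n : ℕ) : ℂ[X] :=
  (1 - C (-(n : ℂ)⁻¹) * X) ^ n - ∑ k ∈ Finset.range n, C ((k ! : ℂ)⁻¹) * X ^ k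

lemma Qn_coeff (n k : ℕ) : (Qn n).coeff k =
    (n.choose k : ℂ) * ((n : ℂ)⁻¹) ^ k - if k < n then ((k ! : ℂ)⁻¹) else 0 := by
  unfold Qn
  rw [coeff_sub, coeff_one_sub, neg_neg, finsetSum_coeff]
  congr 1
  simp only [coeff_C_mul, coeff_X_pow]
  simp

lemma norm_c_le (n k : ℕ) : ‖(n.choose k : ℂ) * ((n : ℂ)⁻¹) ^ k‖ ≤ 1 / (k ! : ℝ) := by
  have h1 : (n.choose k : ℝ) ≤ (n : ℝ) ^ k / (k ! : ℝ) := Nat.choose_le_pow_div k n
  rw [norm_mul, norm_pow, norm_inv, Complex.norm_natCast, Complex.norm_natCast]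
  calc (n.choose k : ℝ) * ((n : ℝ)⁻¹) ^ k ≤ (n : ℝ) ^ k / (k ! : ℝ) * ((n : ℝ)⁻¹) ^ k := by
        gcongr
    _ = ((n : ℝ) * (n : ℝ)⁻¹) ^ k / (k ! : ℝ) := by rw [mul_pow]; ring
    _ ≤ 1 / (k ! : ℝ) := by
        gcongr
        apply pow_le_one₀ (by positivity)
        exact mul_inv_le_one

lemma Qn_bound (n k : ℕ) : ‖(Qn n).coeff k‖ ≤ 2 / (k ! : ℝ) := by
  rw [Qn_coeff]
  refine (norm_sub_le _ _).trans ?_
  have h1 := norm_c_le n k
  have h2 : ‖(if k < n then ((k ! : ℂ)⁻¹) else 0)‖ ≤ 1 / (k ! : ℝ) := by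
    split_ifs
    · rw [norm_inv, Complex.norm_natCast, one_div]
    · rw [norm_zero]; positivity
  calc _ ≤ 1 / (k ! : ℝ) + 1 / (k ! : ℝ) := add_le_add h1 h2
    _ = 2 / (k ! : ℝ) := by ring

lemma Qn_lim (k : ℕ) : Tendsto (fun n => (Qn n).coeff k) atTop (𝓝 0) := by
  simp only [Qn_coeff]
  have h1 : Tendsto (fun n : ℕ => (n.choose k : ℝ) * ((n : ℝ)⁻¹) ^ k) atTop
      (𝓝 (1 ^ k / (k ! : ℝ))) := by
    apply ProbabilityTheory.tendsto_choose_mul_pow_atTop
    refine (tendsto_const_nhds (x := (1 : ℝ))).congr' ?_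
    filter_upwards [eventually_ne_atTop 0] with n hn
    field_simp
  have h3 := (Complex.continuous_ofReal.tendsto _).comp h1
  have h4 : Tendsto (fun n : ℕ => if k < n then ((k ! : ℂ)⁻¹) else 0) atTop (𝓝 ((k ! : ℂ)⁻¹)) := by
    refine (tendsto_const_nhds (x := ((k ! : ℂ)⁻¹))).congr' ?_
    filter_upwards [eventually_gt_atTop k] with n hn
    rw [if_pos hn]
  have h5 := h3.sub h4
  convert h5 using 2
  · simp only [Function.comp_apply]
    push_cast
    rfl
  · push_cast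
    simp

lemma Qn_sum (ρ : ℝ) (hρ : 0 < ρ) :
    Tendsto (fun n => (Qn n).sum fun k c => ‖c‖ * ρ ^ k) atTop (𝓝 0) := by
  have h := tannery (κ := fun _ => 0) Qn_bound Qn_lim hρ
  refine h.congr fun n => ?_
  simp only [sub_zero]
  rw [Polynomial.sum_def, tsum_eq_sum (s := (Qn n).support)]
  intro k hk
  rw [notMem_support_iff.1 hk, norm_zero, zero_mul]

lemma f_exp (hopen : IsOpen {u : R | IsUnit u})
    (hinv : ContinuousOn Ring.inverse {u : R | IsUnit u}) (hA1 : StmtA1 R) (hA2 : StmtA2 R)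
    (D : Data R I H) (hB : StmtB D) {a u : R} (ha : a ∈ I)
    (hu : Tendsto (fun N : ℕ => ∑ n ∈ Finset.range N, ((n ! : ℂ))⁻¹ • a ^ n) atTop (𝓝 u)) :
    D.f (u - 1) = Complex.exp (D.lam a) := by
  have h1 := hA2 Qn Qn_sum a
  have h2 := hu
  have h3 : Tendsto (fun n : ℕ => ((1 : R) + (n : ℂ)⁻¹ • a) ^ n) atTop (𝓝 u) := by
    have h4 := h1.add h2
    rw [zero_add] at h4
    refine h4.congr fun n => ?_
    unfold Qn
    simp only [map_sub, map_sum, map_mul, map_one, map_pow, aeval_X, aeval_C, map_neg]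
    rw [neg_mul, sub_neg_eq_add, ← Algebra.smul_def]
    simp only [← Algebra.smul_def]
    abel
  have h5 : Tendsto (fun n : ℕ => D.f (((1 : R) + (n : ℂ)⁻¹ • a) ^ n - 1)) atTop
      (𝓝 (D.f (u - 1))) :=
    ((f_continuous hA1 D).tendsto _).comp (h3.sub_const 1)
  have h6 : (fun n : ℕ => D.f (((1 : R) + (n : ℂ)⁻¹ • a) ^ n - 1)) =
      fun n : ℕ => (1 + (D.f ((n : ℂ)⁻¹ • a) - 1)) ^ n := by
    funext n
    rw [(f_pow hopen hinv hA1 D hB (Submodule.smul_of_tower_mem I ((n : ℂ)⁻¹) ha) n).2]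
    congr 1
    ring
  have hder : HasDerivAt (fun t : ℂ => D.f (0 + t • a)) (D.lam a) 0 := by
    have := f_hasDerivAt hopen hinv hA1 D hB (I.zero_mem) ha (e := 1) (by simp)
    rwa [mul_one, f_zero, mul_one] at this
  have h7 : Tendsto (fun n : ℕ => (n : ℂ) * (D.f ((n : ℂ)⁻¹ • a) - 1)) atTop (𝓝 (D.lam a)) := by
    rw [hasDerivAt_iff_tendsto_slope_zero] at hder
    have h8 : Tendsto (fun n : ℕ => (n : ℂ)⁻¹) atTop (𝓝[≠] 0) := by
      rw [tendsto_nhdsWithin_iff]
      refine ⟨?_, ?_⟩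
      · have := tendsto_one_div_atTop_nhds_zero_nat (𝕜 := ℂ)
        simpa [one_div] using this
      · filter_upwards [eventually_ne_atTop 0] with n hn
        simpa using hn
    have h9 := hder.comp h8
    refine h9.congr fun n => ?_
    simp only [Function.comp_apply, inv_inv, zero_add, zero_smul, f_zero, smul_eq_mul]
  have h10 := Complex.tendsto_one_add_pow_exp_of_tendsto h7
  rw [h6] at h5
  exact tendsto_nhds_unique h5 h10

/-- The core theorem. -/
theorem core (hopen : IsOpen {u : R | IsUnit u})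
    (hinv : ContinuousOn Ring.inverse {u : R | IsUnit u}) (hA1 : StmtA1 R) (hA2 : StmtA2 R)
    (D : Data R I H) (hB : StmtB D) :
    ∃ Φ : R → ℂ, (∀ a ∈ I, ∀ b ∈ I, Φ ((1 + a) * (1 + b)) = Φ (1 + a) * Φ (1 + b)) ∧
      Continuous Φ ∧ (∀ a w : R, Differentiable ℂ (fun t : ℂ => Φ (1 + (a + t • w)))) ∧
      (∀ a ∈ I, ∀ u : R,
        Tendsto (fun N : ℕ => ∑ n ∈ Finset.range N, ((n ! : ℂ))⁻¹ • a ^ n) atTop (𝓝 u) →
        Φ u = Complex.exp (D.lam a)) := by
  refine ⟨fun u => D.f (u - 1), fun a ha b hb => ?_, ?_, fun a w => ?_, fun a ha u hu => ?_⟩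
  · simp only [add_sub_cancel_left]
    rw [← f_mul hopen hinv hA1 D hB ha hb]
    congr 1
    ring
  · exact (f_continuous hA1 D).comp (continuous_id.sub continuous_const)
  · simp only [add_sub_cancel_left]
    exact f_differentiable hA1 D a w
  · exact f_exp hopen hinv hA1 hA2 D hB ha hu

end Pool.Agent.R450.Cia
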